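import Mathlib

/-!
# Patterns with a long shifted increasing self-matching are rare

`O` is the type of slots (`o0` is the lazy slot), `p k` the weights of slot `k`. A pattern
`g : Fin N → O` is bad at level `k` if there are `k` non-lazy slots `i` and a strictly increasing
map `σ` on them without fixed points with `g (σ i) = g i`. The weight of the bad patterns is at most
`4 ^ N * ρ ^ k` if all non-lazy letters have weight at most `ρ`.
-/

set_option autoImplicit false
set_option linter.unusedSectionVars false

namespace Pool.Agent.Helper65.FS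

open Finset

variable {O : Type*} [Fintype O] [DecidableEq O] {N : ℕ}

theorem sum_bU {ι α : Type*} [DecidableEq α] (s : Finset ι) (t : ι → Finset α) (f : α → ℝ)
    (hf : ∀ x, 0 ≤ f x) : ∑ x ∈ s.biUnion t, f x ≤ ∑ i ∈ s, ∑ x ∈ t i, f x := by
  classical
  induction s using Finset.induction_on with
  | empty => simp
  | insert i s hi ih =>
    rw [biUnion_insert, sum_insert hi]
    have h1 := sum_union_inter (s₁ := t i) (s₂ := s.biUnion t) (f := f)
    have h2 : 0 ≤ ∑ x ∈ t i ∩ s.biUnion t, f x := sum_nonneg fun x _ => hf x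
    linarith

/-- the weight of a pattern -/
def wt (p : Fin N → O → ℝ) (g : Fin N → O) : ℝ := ∏ i, p i (g i)

theorem wt_nonneg {p : Fin N → O → ℝ} (hp : ∀ k o, 0 ≤ p k o) (g : Fin N → O) : 0 ≤ wt p g :=
  prod_nonneg fun i _ => hp i (g i)

theorem wt_update (p : Fin N → O → ℝ) (m : Fin N) (g : Fin N → O) (o : O) :
    wt p (Function.update g m o) * p m (g m) = wt p g * p m o := by
  unfold wt
  rw [← mul_prod_erase univ (fun i => p i (Function.update g m o i)) (mem_univ m),
    ← mul_prod_erase univ (fun i => p i (g i)) (mem_univ m)]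
  have h : ∏ i ∈ univ.erase m, p i (Function.update g m o i) = ∏ i ∈ univ.erase m, p i (g i) := by
    apply prod_congr rfl
    intro i hi
    rw [Function.update_of_ne (ne_of_mem_erase hi)]
  rw [h, Function.update_self]
  ring

/-- resampling one slot -/
theorem resample (p : Fin N → O → ℝ) (m : Fin N) (h1 : ∑ o, p m o = 1) (F : (Fin N → O) → ℝ) :
    ∑ g, wt p g * F g = ∑ g, wt p g * ∑ o, p m o * F (Function.update g m o) := by
  have inv : Function.Involutive
      (fun w : (Fin N → O) × O => (Function.update w.1 m w.2, w.1 m)) := by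
    intro w
    simp
  calc ∑ g, wt p g * F g = ∑ g, ∑ o, (wt p g * F g) * p m o := by
        apply sum_congr rfl
        intro g _
        rw [← mul_sum, h1, mul_one]
    _ = ∑ w : (Fin N → O) × O, (wt p w.1 * F w.1) * p m w.2 := by
        rw [Fintype.sum_prod_type]
    _ = ∑ w : (Fin N → O) × O, (wt p (Function.update w.1 m w.2) *
          F (Function.update w.1 m w.2)) * p m (w.1 m) :=
        (Equiv.sum_comp (Function.Involutive.toPerm _ inv)
          (fun w : (Fin N → O) × O => (wt p w.1 * F w.1) * p m w.2)).symm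
    _ = ∑ w : (Fin N → O) × O, wt p w.1 * (p m w.2 * F (Function.update w.1 m w.2)) := by
        apply sum_congr rfl
        intro w _
        have h := wt_update p m w.1 w.2
        calc (wt p (Function.update w.1 m w.2) * F (Function.update w.1 m w.2)) * p m (w.1 m) =
            (wt p (Function.update w.1 m w.2) * p m (w.1 m)) * F (Function.update w.1 m w.2) := by
              ring
          _ = _ := by rw [h]; ring
    _ = ∑ g, wt p g * ∑ o, p m o * F (Function.update g m o) := by
        rw [Fintype.sum_prod_type]
        apply sum_congr rfl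
        intro g _
        rw [mul_sum]

theorem wt_sum (p : Fin N → O → ℝ) (h1 : ∀ k, ∑ o, p k o = 1) : ∑ g, wt p g = 1 := by
  have h := Finset.prod_univ_sum (fun _ : Fin N => (univ : Finset O)) (fun i o => p i o)
  rw [Fintype.piFinset_univ] at h
  unfold wt
  rw [← h]
  exact prod_eq_one fun i _ => h1 i

/-- one increasing matching without fixed points -/
theorem chain (p : Fin N → O → ℝ) (hp : ∀ k o, 0 ≤ p k o) (h1 : ∀ k, ∑ o, p k o = 1) (o0 : O)
    {ρ : ℝ} (h0 : 0 ≤ ρ) (hρ : ∀ k o, o ≠ o0 → p k o ≤ ρ) (σ : Fin N → Fin N) :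
    ∀ (k : ℕ) (I : Finset (Fin N)), #I = k → StrictMonoOn σ I → (∀ i ∈ I, σ i ≠ i) →
      ∑ g with (∀ i ∈ I, g i ≠ o0 ∧ g (σ i) = g i), wt p g ≤ ρ ^ k := by
  intro k
  induction k with
  | zero =>
    intro I hI _ _
    rw [pow_zero, ← wt_sum p h1]
    exact sum_le_sum_of_subset_of_nonneg (filter_subset _ _) fun g _ _ => wt_nonneg hp g
  | succ k ih =>
    intro I hI hm hf
    have hne : I.Nonempty := card_pos.1 (by omega)
    -- the leaf
    obtain ⟨i0, m, b, hi0, hbm, hmb, hmI, hmσ⟩ : ∃ i0 m b : Fin N, i0 ∈ I ∧ b ≠ m ∧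
        ((i0 = m ∧ σ i0 = b) ∨ (i0 = b ∧ σ i0 = m)) ∧ m ∉ I.erase i0 ∧
        (∀ i ∈ I.erase i0, σ i ≠ m) := by
      have hU : (I ∪ I.image σ).Nonempty := hne.mono subset_union_left
      obtain ⟨m, hmU, hmax⟩ := exists_max_image (I ∪ I.image σ) id hU
      simp only [id] at hmax
      by_cases hm1 : m ∈ I
      · refine ⟨m, m, σ m, hm1, hf m hm1, Or.inl ⟨rfl, rfl⟩, notMem_erase m I, ?_⟩
        intro i hi h
        have hi' := mem_of_mem_erase hi
        have hle : i ≤ m := hmax i (mem_union_left _ hi')
        have hlt : i < m := lt_of_le_of_ne hle (ne_of_mem_erase hi)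
        have h2 := hm hi' hm1 hlt
        rw [h] at h2
        exact absurd (hmax (σ m) (mem_union_right _ (mem_image_of_mem σ hm1))) (not_le.2 h2)
      · rcases mem_union.1 hmU with h | h
        · exact absurd h hm1
        · obtain ⟨i0, hi0, h2⟩ := mem_image.1 h
          refine ⟨i0, m, i0, hi0, fun h3 => hm1 (h3 ▸ hi0), Or.inr ⟨rfl, h2⟩,
            fun h3 => hm1 (mem_of_mem_erase h3), ?_⟩
          intro i hi h3
          exact (ne_of_mem_erase hi) (hm.injOn (mem_of_mem_erase hi) hi0 (h3.trans h2.symm))
    have hcard : #(I.erase i0) = k := by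
      rw [card_erase_of_mem hi0, hI]
      omega
    have hrec := ih (I.erase i0) hcard (hm.mono (by
      intro i hi
      exact mem_of_mem_erase hi)) (fun i hi => hf i (mem_of_mem_erase hi))
    calc ∑ g with (∀ i ∈ I, g i ≠ o0 ∧ g (σ i) = g i), wt p g =
        ∑ g, wt p g * (if (∀ i ∈ I, g i ≠ o0 ∧ g (σ i) = g i) then 1 else 0) := by
          rw [sum_filter]
          apply sum_congr rfl
          intro g _
          split_ifs <;> simp
      _ = ∑ g, wt p g * ∑ o, p m o * (if (∀ i ∈ I, Function.update g m o i ≠ o0 ∧
            Function.update g m o (σ i) = Function.update g m o i) then 1 else 0) :=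
          resample p m (h1 m) _
      _ ≤ ∑ g, wt p g * (ρ * (if (∀ i ∈ I.erase i0, g i ≠ o0 ∧ g (σ i) = g i) then 1 else 0)) := by
          apply sum_le_sum
          intro g _
          apply mul_le_mul_of_nonneg_left _ (wt_nonneg hp g)
          calc ∑ o, p m o * (if (∀ i ∈ I, Function.update g m o i ≠ o0 ∧
                Function.update g m o (σ i) = Function.update g m o i) then (1 : ℝ) else 0) ≤
              ∑ o, (if o = g b then (if o ≠ o0 then p m o * (if (∀ i ∈ I.erase i0, g i ≠ o0 ∧
                g (σ i) = g i) then (1 : ℝ) else 0) else 0) else 0) := by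
                apply sum_le_sum
                intro o _
                by_cases hC : (∀ i ∈ I, Function.update g m o i ≠ o0 ∧
                  Function.update g m o (σ i) = Function.update g m o i)
                · rw [if_pos hC]
                  have hi := hC i0 hi0
                  have hob : o = g b ∧ o ≠ o0 := by
                    rcases hmb with ⟨h3, h4⟩ | ⟨h3, h4⟩
                    · rw [h3, Function.update_self] at hi
                      rw [h3] at h4
                      rw [h4, Function.update_of_ne hbm] at hi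
                      exact ⟨hi.2.symm, hi.1⟩
                    · rw [h4, h3, Function.update_self, Function.update_of_ne hbm] at hi
                      exact ⟨hi.2, fun h => hi.1 (hi.2 ▸ h)⟩
                  have hrest : ∀ i ∈ I.erase i0, g i ≠ o0 ∧ g (σ i) = g i := by
                    intro i hi2
                    have h5 := hC i (mem_of_mem_erase hi2)
                    have h6 : i ≠ m := fun h => hmI (h ▸ hi2)
                    rw [Function.update_of_ne h6, Function.update_of_ne (hmσ i hi2)] at h5
                    exact h5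
                  rw [if_pos hob.1, if_pos hob.2, if_pos hrest]
                · rw [if_neg hC, mul_zero]
                  split_ifs
                  · exact mul_nonneg (hp _ _) zero_le_one
                  · simp
                  · exact le_rfl
                  · exact le_rfl
            _ = (if g b ≠ o0 then p m (g b) * (if (∀ i ∈ I.erase i0, g i ≠ o0 ∧
                g (σ i) = g i) then (1 : ℝ) else 0) else 0) := by
                rw [sum_ite_eq' univ (g b), if_pos (mem_univ _)]
            _ ≤ _ := by
                split_ifs with h3 h4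
                · rw [mul_one, mul_one]
                  exact hρ _ _ h3
                · simp
                · simpa using h0
                · simp
      _ = ρ * ∑ g with (∀ i ∈ I.erase i0, g i ≠ o0 ∧ g (σ i) = g i), wt p g := by
          rw [mul_sum, sum_filter]
          apply sum_congr rfl
          intro g _
          split_ifs
          · ring
          · simp
      _ ≤ ρ * ρ ^ k := mul_le_mul_of_nonneg_left hrec h0
      _ = ρ ^ (k + 1) := by ring

/-- the pattern `g` has a shifted increasing self-matching of size `k` -/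
def Shifted (o0 : O) (k : ℕ) (g : Fin N → O) : Prop :=
  ∃ (I : Finset (Fin N)) (σ : Fin N → Fin N), k ≤ #I ∧ StrictMonoOn σ I ∧
    ∀ i ∈ I, σ i ≠ i ∧ g i ≠ o0 ∧ g (σ i) = g i

theorem eqOn_of_image {σ τ : Fin N → Fin N} {I : Finset (Fin N)} (h1 : StrictMonoOn σ I)
    (h2 : StrictMonoOn τ I) (h : I.image σ = I.image τ) : ∀ i ∈ I, σ i = τ i := by
  have e1 : StrictMono (fun i : I => σ i) := fun i j hij => h1 i.2 j.2 hij
  have e2 : StrictMono (fun i : I => τ i) := fun i j hij => h2 i.2 j.2 hij
  have e3 : Set.range (fun i : I => σ i) = Set.range (fun i : I => τ i) := by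
    ext x
    constructor
    · rintro ⟨i, rfl⟩
      have : σ i ∈ I.image τ := h ▸ mem_image_of_mem σ i.2
      obtain ⟨j, hj, h3⟩ := mem_image.1 this
      exact ⟨⟨j, hj⟩, h3⟩
    · rintro ⟨i, rfl⟩
      have : τ i ∈ I.image σ := h ▸ mem_image_of_mem τ i.2
      obtain ⟨j, hj, h3⟩ := mem_image.1 this
      exact ⟨⟨j, hj⟩, h3⟩
  have e4 := (StrictMono.range_inj e1 e2).1 e3
  intro i hi
  exact congrFun e4 ⟨i, hi⟩

open Classical in
/-- PAT: the weight of the patterns with a shifted increasing self-matching of size `k` -/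
theorem pat (p : Fin N → O → ℝ) (hp : ∀ k o, 0 ≤ p k o) (h1 : ∀ k, ∑ o, p k o = 1) (o0 : O)
    {ρ : ℝ} (h0 : 0 ≤ ρ) (hρ : ∀ k o, o ≠ o0 → p k o ≤ ρ) (k : ℕ) :
    ∑ g with Shifted o0 k g, wt p g ≤ 4 ^ N * ρ ^ k := by
  -- the matchings
  let ok : Finset (Fin N) → Finset (Fin N) → (Fin N → Fin N) → Prop := fun I J σ =>
    #I = k ∧ StrictMonoOn σ I ∧ (∀ i ∈ I, σ i ≠ i) ∧ I.image σ = J
  let sg : Finset (Fin N) × Finset (Fin N) → (Fin N → Fin N) := fun w =>
    if h : ∃ σ, ok w.1 w.2 σ then h.choose else id
  let A : Finset (Fin N) × Finset (Fin N) → Finset (Fin N → O) := fun w =>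
    if ∃ σ, ok w.1 w.2 σ then
      univ.filter (fun g => ∀ i ∈ w.1, g i ≠ o0 ∧ g (sg w i) = g i) else ∅
  have hsub : (univ.filter fun g : Fin N → O => Shifted o0 k g) ⊆ univ.biUnion A := by
    intro g hg
    obtain ⟨I, σ, hk, hm, hI⟩ := (mem_filter.1 hg).2
    obtain ⟨I', hI', hc⟩ := exists_subset_card_eq hk
    have hok : ok I' (I'.image σ) σ :=
      ⟨hc, hm.mono (fun i hi => hI' hi), fun i hi => (hI i (hI' hi)).1, rfl⟩
    have hex : ∃ τ, ok I' (I'.image σ) τ := ⟨σ, hok⟩
    refine mem_biUnion.2 ⟨(I', I'.image σ), mem_univ _, ?_⟩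
    have hsg : sg (I', I'.image σ) = hex.choose := dif_pos hex
    have hA : A (I', I'.image σ) = univ.filter
        (fun g => ∀ i ∈ I', g i ≠ o0 ∧ g (sg (I', I'.image σ) i) = g i) := if_pos hex
    rw [hA, mem_filter]
    refine ⟨mem_univ _, fun i hi => ⟨(hI i (hI' hi)).2.1, ?_⟩⟩
    have hs := hex.choose_spec
    rw [hsg, eqOn_of_image hs.2.1 hok.2.1 hs.2.2.2 i hi]
    exact (hI i (hI' hi)).2.2
  calc ∑ g with Shifted o0 k g, wt p g ≤ ∑ g ∈ univ.biUnion A, wt p g :=
        sum_le_sum_of_subset_of_nonneg hsub fun g _ _ => wt_nonneg hp g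
    _ ≤ ∑ w : Finset (Fin N) × Finset (Fin N), ∑ g ∈ A w, wt p g := by
        exact sum_bU _ _ _ (fun g => wt_nonneg hp g)
    _ ≤ ∑ _w : Finset (Fin N) × Finset (Fin N), ρ ^ k := by
        apply sum_le_sum
        intro w _
        by_cases hex : ∃ σ, ok w.1 w.2 σ
        · have hA : A w = univ.filter (fun g => ∀ i ∈ w.1, g i ≠ o0 ∧ g (sg w i) = g i) :=
            if_pos hex
          have hsg : sg w = hex.choose := dif_pos hex
          have hs := hex.choose_spec
          rw [hA, hsg]
          exact chain p hp h1 o0 h0 hρ _ k w.1 hs.1 hs.2.1 hs.2.2.1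
        · have hA : A w = ∅ := if_neg hex
          rw [hA, sum_empty]
          exact pow_nonneg h0 k
    _ = 4 ^ N * ρ ^ k := by
        rw [sum_const, card_univ, Fintype.card_prod, Fintype.card_finset, Fintype.card_fin,
          nsmul_eq_mul]
        push_cast
        rw [← mul_pow]
        norm_num

/-- the weight of the patterns with many lazy slots -/
theorem lazy_le (p : Fin N → O → ℝ) (hp : ∀ k o, 0 ≤ p k o) (h1 : ∀ k, ∑ o, p k o = 1) (o0 : O)
    {lam : ℝ} (h0 : 0 ≤ lam) (hl : ∀ k, p k o0 ≤ lam) (k : ℕ) :
    ∑ g with k ≤ #{i | g i = o0}, wt p g ≤ 2 ^ N * lam ^ k := by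
  have one : ∀ S : Finset (Fin N), ∑ g with (∀ i ∈ S, g i = o0), wt p g ≤ lam ^ #S := by
    intro S
    have h2 : (univ.filter fun g : Fin N → O => ∀ i ∈ S, g i = o0) =
        Fintype.piFinset (fun i => if i ∈ S then {o0} else univ) := by
      ext g
      simp only [mem_filter, mem_univ, true_and, Fintype.mem_piFinset]
      constructor
      · intro h i
        by_cases hi : i ∈ S
        · rw [if_pos hi, mem_singleton]
          exact h i hi
        · rw [if_neg hi]
          exact mem_univ _
      · intro h i hi
        have h3 := h i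
        rw [if_pos hi, mem_singleton] at h3
        exact h3
    rw [h2]
    unfold wt
    rw [← Finset.prod_univ_sum (fun i : Fin N => if i ∈ S then {o0} else univ) (fun i o => p i o)]
    calc ∏ i, ∑ o ∈ (if i ∈ S then {o0} else univ), p i o ≤
        ∏ i, (if i ∈ S then lam else 1) := by
          apply prod_le_prod
          · intro i _
            exact sum_nonneg fun o _ => hp i o
          · intro i _
            split_ifs with h
            · rw [sum_singleton]
              exact hl i
            · exact (h1 i).le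
      _ = lam ^ #S := by
          rw [prod_ite, prod_const, prod_const_one, mul_one]
          congr 1
          congr 1
          ext i
          simp
  calc ∑ g with k ≤ #{i | g i = o0}, wt p g ≤
      ∑ g ∈ (univ.filter fun S : Finset (Fin N) => #S = k).biUnion
        (fun S => univ.filter fun g : Fin N → O => ∀ i ∈ S, g i = o0), wt p g := by
        apply sum_le_sum_of_subset_of_nonneg
        · intro g hg
          obtain ⟨S, hS, hc⟩ := exists_subset_card_eq (mem_filter.1 hg).2
          refine mem_biUnion.2 ⟨S, mem_filter.2 ⟨mem_univ _, hc⟩, mem_filter.2 ⟨mem_univ _, ?_⟩⟩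
          intro i hi
          exact (mem_filter.1 (hS hi)).2
        · intro g _ _
          exact wt_nonneg hp g
    _ ≤ ∑ S : Finset (Fin N) with #S = k, ∑ g with (∀ i ∈ S, g i = o0), wt p g :=
        sum_bU _ _ _ (fun g => wt_nonneg hp g)
    _ ≤ ∑ S : Finset (Fin N) with #S = k, lam ^ k := by
        apply sum_le_sum
        intro S hS
        rw [← (mem_filter.1 hS).2]
        exact one S
    _ ≤ ∑ _S : Finset (Fin N), lam ^ k :=
        sum_le_sum_of_subset_of_nonneg (filter_subset _ _) fun _ _ _ => pow_nonneg h0 k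
    _ = 2 ^ N * lam ^ k := by
        rw [sum_const, card_univ, Fintype.card_finset, Fintype.card_fin, nsmul_eq_mul]
        push_cast
        ring

end Pool.Agent.Helper65.FS
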